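import Mathlib
import Pool.Agent.Helper37.RvDefs
import Pool.Agent.Helper37.RvAWLimit
import Pool.Agent.Helper37.RvMain

set_option autoImplicit false

namespace Pool.Agent.Results.MP_7e9b7a_co.Disproof

open Pool.Agent.Helper37.Rendezvous MeasureTheory Filter Topology
open scoped ENNReal unitInterval

/-- The Anderson-Weber strategy is not asymptotically optimal. The limit `c` of the normalised
optimal Anderson-Weber times exists and lies in `[0.82888, 0.8289]`, and for every even number
`n = 2 N` of locations with `N ≥ 2 * 10 ^ 8` some symmetric strategy has expected meeting time at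
most `(c - 1 / 5000) n`. -/
theorem result : ∃ c : ℝ, 0.82888 ≤ c ∧ c ≤ 0.8289 ∧
    Tendsto (fun m : ℕ => (⨅ θ : I, expTime (awStrategy (m + 2) θ)) / ((m + 2 : ℕ) : ℝ≥0∞)) atTop
      (𝓝 (ENNReal.ofReal c)) ∧
    ∀ N : ℕ, 200000000 ≤ N → ∃ D : Measure (ℕ → Fin (2 * N)), IsProbabilityMeasure D ∧
      expTime D ≤ ENNReal.ofReal ((c - 1 / 5000) * (2 * N)) := by
  refine ⟨cAW, cAW_ge, ?_, aw_limit, ?_⟩
  · refine (cAW_le (2475 / 10000) (by norm_num) (by norm_num)).trans ?_
    have hd := den_pos (2475 / 10000) (by norm_num) (by norm_num)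
    rw [div_le_iff₀ hd]
    have h1 := g_bounds.1
    have h2 := g_bounds.2
    unfold num den
    nlinarith
  · intro N hN
    obtain ⟨D, hD, hle⟩ := exists_strategy hN
    refine ⟨D, hD, hle.trans (ENNReal.ofReal_le_ofReal ?_)⟩
    have hc := cAW_ge
    have hN' : (0 : ℝ) ≤ N := Nat.cast_nonneg N
    apply mul_le_mul_of_nonneg_right _ (by positivity)
    linarith

end Pool.Agent.Results.MP_7e9b7a_co.Disproof
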